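import Pool.Agent.MP_7d75c8_lc.Final

/-!
# Diffeomorphism of connected smooth `n`-manifolds is classifiable by countable structures

Full positive answer to Q2 of MP_7d75c8_lc. All definitions used are in
`Pool/Agent/MP_7d75c8_lc/Defs.lean`.
-/

namespace Pool.Agent.Results.MP_7d75c8_lc.SmoothClassifiable

open MP7d75 Manifold
open scoped ContDiff

/-- For every `n`: the space `Code n` of codes of connected smooth `n`-manifolds is a standard
Borel space; every code codes a Hausdorff second countable connected smooth manifold; every
connected smooth `n`-manifold is diffeomorphic to a coded one; and the diffeomorphism relation on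
`Code n` is classifiable by countable structures. -/
theorem result (n : ℕ) :
    StandardBorelSpace (Code n) ∧
    (∀ c : Code n, T2Space c.Space ∧ SecondCountableTopology c.Space ∧ ConnectedSpace c.Space ∧
      IsManifold 𝓘(ℝ, E n) ∞ c.Space) ∧
    (∀ (M : Type) [TopologicalSpace M] [ChartedSpace (E n) M] [T2Space M]
      [SecondCountableTopology M] [ConnectedSpace M] [IsManifold 𝓘(ℝ, E n) ∞ M],
      ∃ c : Code n, Nonempty (Diffeomorph 𝓘(ℝ, E n) 𝓘(ℝ, E n) M c.Space ∞)) ∧
    ClassifiableByCountableStructures (DiffeoRel n) :=
  ⟨standardBorel_code n, fun c => ⟨c.t2, inferInstance, c.conn, inferInstance⟩,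
    fun M => exists_code n M, classify n⟩

end Pool.Agent.Results.MP_7d75c8_lc.SmoothClassifiable
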